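import Pool.Agent.N290.RJ.Stm

/-!
Project RJ (helper290), part D1 (helper622, after Pool.Agent.N2.RI.D1 of helper2): bounded solutions
for dilated data.
-/

set_option autoImplicit false

open Complex MeasureTheory Set Filter Topology

namespace Pool.Agent.N622.RJ

open Pool.Agent.N290.RJ

variable {d : ℕ}

theorem smul_eq (r : ℝ) (z : E d) : r • z = (r : ℂ) • z := by
  ext <;> simp

theorem dil {f : E d → ℂ} (hf : DifferentiableOn ℂ f (B d)) {r : ℝ} (h0 : 0 ≤ r) (h1 : r < 1) :
    DifferentiableOn ℂ (fun z => f (r • z)) (B d) := by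
  have h2 : DifferentiableOn ℂ (fun z : E d => r • z) (B d) := by
    have : (fun z : E d => r • z) = fun z : E d => (r : ℂ) • z := funext (smul_eq r)
    rw [this]
    exact (differentiable_id.const_smul (r : ℂ)).differentiableOn
  exact hf.comp h2 fun z hz => smul_mem_B hz h0 h1.le

theorem norm_le_nm (z : E d) : ‖z‖ ≤ nm z := by
  have h0 : 0 ≤ ∑ i, ‖z.2 i‖ ^ 2 := Finset.sum_nonneg fun i _ => by positivity
  rw [Prod.norm_def]
  refine max_le ?_ ?_
  · refine Real.le_sqrt_of_sq_le ?_
    unfold N
    linarith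
  · rw [pi_norm_le_iff_of_nonneg (nm_nonneg z)]
    intro i
    refine Real.le_sqrt_of_sq_le ?_
    unfold N
    have h1 : ‖z.2 i‖ ^ 2 ≤ ∑ i, ‖z.2 i‖ ^ 2 :=
      Finset.single_le_sum (f := fun i => ‖z.2 i‖ ^ 2) (fun i _ => by positivity) (Finset.mem_univ i)
    have h2 : 0 ≤ ‖z.1‖ ^ 2 := by positivity
    linarith

/-- near a point of the closed ball where `f (r • p)` is large, it stays large -/
theorem near {f : E d → ℂ} (hf : DifferentiableOn ℂ f (B d)) {r c : ℝ} {p : E d}
    (hp : r • p ∈ B d) (hc : c < ‖f (r • p)‖) : ∃ ρ : ℝ, 0 < ρ ∧ ∀ z : E d,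
      nm (z - p) < ρ → c < ‖f (r • z)‖ := by
  have h1 : ContinuousAt f (r • p) := (hf.continuousOn).continuousAt (B_open.mem_nhds hp)
  have h2 : ContinuousAt (fun z : E d => ‖f (r • z)‖) p := by
    have h3 : ContinuousAt (fun z : E d => r • z) p := by fun_prop
    exact (ContinuousAt.comp (f := fun z : E d => r • z) h1 h3).norm
  have h4 : ∀ᶠ z in 𝓝 p, c < ‖f (r • z)‖ := h2.eventually_const_lt hc
  obtain ⟨ρ, hρ, h5⟩ := Metric.eventually_nhds_iff.1 h4
  refine ⟨ρ, hρ, fun z hz => h5 ?_⟩
  rw [dist_eq_norm]
  exact (norm_le_nm _).trans_lt hz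

/-- bounded solutions for dilated data -/
theorem D1_of (d : ℕ) (hL : LOC d) : D1 d := by
  intro δ r f g hδ hr0 hr1 hf hg hf1 hg1 hfg
  have hF := dil hf hr0 hr1
  have hG := dil hg hr0 hr1
  have hmem : ∀ z ∈ B d, r • z ∈ B d := fun z hz => smul_mem_B hz hr0 hr1.le
  obtain ⟨C, hC⟩ := hL 2 δ Unit (fun _ => ![fun z => f (r • z), fun z => g (r • z)]) hδ
    (by
      intro _ j
      fin_cases j
      · exact hF
      · exact hG)
    (by
      intro _ j z hz
      fin_cases j
      · exact hf1 _ (hmem z hz)
      · exact hg1 _ (hmem z hz))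
    (by
      intro _ z hz
      rw [Fin.sum_univ_two]
      exact hfg _ (hmem z hz))
    (by
      intro p hp
      have hpB : r • p ∈ B d := by
        rw [mem_B, N_smul, hp, mul_one]
        exact pow_lt_one₀ hr0 hr1 two_ne_zero
      have h1 := hfg _ hpB
      have h2 : δ / 4 < ‖f (r • p)‖ ∨ δ / 4 < ‖g (r • p)‖ := by
        by_contra hcon
        push Not at hcon
        linarith [hcon.1, hcon.2]
      rcases h2 with h2 | h2
      · obtain ⟨ρ, hρ, hρ1⟩ := near hf hpB h2
        refine ⟨ρ, 4 / δ, hρ, fun _ => ⟨![fun z => (f (r • z))⁻¹, fun _ => 0], ?_, ?_⟩⟩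
        · intro l
          fin_cases l
          · refine DifferentiableOn.inv (hF.mono fun z hz => hz.1) fun z hz h0 => ?_
            have := hρ1 z hz.2
            rw [h0, norm_zero] at this
            linarith
          · exact differentiableOn_const 0
        · intro z hz hz1
          have h3 := hρ1 z hz1
          have h4 : f (r • z) ≠ 0 := fun h0 => by
            rw [h0, norm_zero] at h3
            linarith
          refine ⟨?_, ?_⟩
          · intro l
            fin_cases l
            · show ‖(f (r • z))⁻¹‖ ≤ 4 / δ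
              rw [norm_inv, inv_le_comm₀ (by positivity) (by positivity), inv_div]
              exact h3.le
            · show ‖(0 : ℂ)‖ ≤ 4 / δ
              rw [norm_zero]
              positivity
          · rw [Fin.sum_univ_two]
            show f (r • z) * (f (r • z))⁻¹ + g (r • z) * 0 = 1
            rw [mul_inv_cancel₀ h4, mul_zero, add_zero]
      · obtain ⟨ρ, hρ, hρ1⟩ := near hg hpB h2
        refine ⟨ρ, 4 / δ, hρ, fun _ => ⟨![fun _ => 0, fun z => (g (r • z))⁻¹], ?_, ?_⟩⟩
        · intro l
          fin_cases l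
          · exact differentiableOn_const 0
          · refine DifferentiableOn.inv (hG.mono fun z hz => hz.1) fun z hz h0 => ?_
            have := hρ1 z hz.2
            rw [h0, norm_zero] at this
            linarith
        · intro z hz hz1
          have h3 := hρ1 z hz1
          have h4 : g (r • z) ≠ 0 := fun h0 => by
            rw [h0, norm_zero] at h3
            linarith
          refine ⟨?_, ?_⟩
          · intro l
            fin_cases l
            · show ‖(0 : ℂ)‖ ≤ 4 / δ
              rw [norm_zero]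
              positivity
            · show ‖(g (r • z))⁻¹‖ ≤ 4 / δ
              rw [norm_inv, inv_le_comm₀ (by positivity) (by positivity), inv_div]
              exact h3.le
          · rw [Fin.sum_univ_two]
            show f (r • z) * 0 + g (r • z) * (g (r • z))⁻¹ = 1
            rw [mul_inv_cancel₀ h4, mul_zero, zero_add])
  obtain ⟨q, hq1, hq2⟩ := hC ()
  refine ⟨q 0, q 1, C, hq1 0, hq1 1, fun z hz => ⟨(hq2 z hz).1 0, (hq2 z hz).1 1, ?_⟩⟩
  have h5 := (hq2 z hz).2
  rw [Fin.sum_univ_two] at h5
  exact h5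

end Pool.Agent.N622.RJ
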